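import Pool.Agent.Q194.Toep
import Pool.Agent.Q194.PSDPolar

/-!
# MP_3f690c_an: matrix algebras in the positive Toeplitz completion class

For a unital C*-algebra `A` and `m ≥ 2` the matrix algebra `M_m(A)` has the positive Toeplitz
completion property if and only if `A` has the completion property for all chordal patterns, if and
only if operators factor in `A` as in Douglas' lemma. In general the positive Toeplitz completion
property implies Douglas factorization for pairs of elements whose left and right supports are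
separated by an element of the algebra.
-/

open scoped ComplexOrder
open Filter Topology

namespace Pool.Agent.Results.MP_3f690c_an.MatrixAlgebras

open Pool.Agent.Q194.PSD

/-- Convergent sequences do not have the factorization property. -/
theorem not_dg : ¬ Dg C(OnePoint ℕ, ℂ) := by
  intro hD
  -- `x n = (-1)^n / (n + 1)`
  have hx0 : Tendsto (fun n : ℕ => ((-1 : ℂ)) ^ n / ((n : ℂ) + 1)) atTop (𝓝 0) := by
    rw [tendsto_zero_iff_norm_tendsto_zero]
    have h1 : ∀ n : ℕ, ‖((-1 : ℂ)) ^ n / ((n : ℂ) + 1)‖ = 1 / ((n : ℝ) + 1) := by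
      intro n
      rw [norm_div, norm_pow, norm_neg, norm_one, one_pow]
      congr 1
      have : ((n : ℂ) + 1) = (((n : ℝ) + 1 : ℝ) : ℂ) := by push_cast; rfl
      rw [this, Complex.norm_real, Real.norm_of_nonneg (by positivity)]
    simp only [h1]
    exact tendsto_one_div_add_atTop_nhds_zero_nat
  let x : C(OnePoint ℕ, ℂ) := OnePoint.continuousMapMkNat (fun n : ℕ => (-1 : ℂ) ^ n / ((n : ℂ) + 1))
    0 hx0
  have hx : ∀ n : ℕ, x (n : OnePoint ℕ) = (-1 : ℂ) ^ n / ((n : ℂ) + 1) := fun n => rfl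
  obtain ⟨v, -, hv⟩ := hD x (star x * x) le_rfl
  set s := CFC.sqrt (star x * x) with hs
  have hss : s * s = star x * x := CFC.sqrt_mul_sqrt_self _ (star_mul_self_nonneg x)
  have hs0 : 0 ≤ s := CFC.sqrt_nonneg _
  have hsn : ∀ n : ℕ, s (n : OnePoint ℕ) = 1 / ((n : ℂ) + 1) := by
    intro n
    have h1 : s (n : OnePoint ℕ) * s (n : OnePoint ℕ) = (1 / ((n : ℂ) + 1)) * (1 / ((n : ℂ) + 1)) := by
      have h2 := congrArg (fun f : C(OnePoint ℕ, ℂ) => f (n : OnePoint ℕ)) hss
      simp only [ContinuousMap.mul_apply, ContinuousMap.star_apply] at h2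
      rw [h2, hx]
      have h3 : ((n : ℂ) + 1) ≠ 0 := Nat.cast_add_one_ne_zero n
      have h4 : star ((-1 : ℂ) ^ n / ((n : ℂ) + 1)) = (-1 : ℂ) ^ n / ((n : ℂ) + 1) := by
        rw [Complex.star_def, map_div₀, map_pow, map_neg, map_one, map_add, map_one, map_natCast]
      rw [h4, div_mul_div_comm, div_mul_div_comm, ← mul_pow]
      norm_num
    have h5 : 0 ≤ s (n : OnePoint ℕ) := ContinuousMap.le_def.1 hs0 _
    rcases mul_self_eq_mul_self_iff.1 h1 with h6 | h6
    · exact h6
    · exfalso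
      rw [h6] at h5
      have h7 : (0 : ℂ) < 1 / ((n : ℂ) + 1) := by
        have : (1 / ((n : ℂ) + 1)) = ((1 / ((n : ℝ) + 1) : ℝ) : ℂ) := by push_cast; rfl
        rw [this]
        exact_mod_cast (by positivity : (0 : ℝ) < 1 / ((n : ℝ) + 1))
      exact absurd (neg_nonneg.1 h5) (not_le_of_gt h7)
  have hvn : ∀ n : ℕ, v (n : OnePoint ℕ) = (-1 : ℂ) ^ n := by
    intro n
    have h1 := congrArg (fun f : C(OnePoint ℕ, ℂ) => f (n : OnePoint ℕ)) hv
    simp only [ContinuousMap.mul_apply] at h1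
    rw [hx, hsn] at h1
    have h3 : ((n : ℂ) + 1) ≠ 0 := Nat.cast_add_one_ne_zero n
    rw [div_eq_mul_one_div] at h1
    exact (mul_right_cancel₀ (one_div_ne_zero h3) h1).symm
  have hlim : Tendsto (fun n : ℕ => (-1 : ℂ) ^ n) atTop (𝓝 (v OnePoint.infty)) := by
    have := (OnePoint.continuous_iff_from_nat v).1 v.continuous
    refine this.congr fun n => hvn n
  have h1 : Tendsto (fun n : ℕ => (-1 : ℂ) ^ (2 * n)) atTop (𝓝 (v OnePoint.infty)) :=
    hlim.comp (tendsto_id.const_mul_atTop' (by norm_num))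
  have h2 : Tendsto (fun n : ℕ => (-1 : ℂ) ^ (2 * n + 1)) atTop (𝓝 (v OnePoint.infty)) :=
    hlim.comp (tendsto_atTop_mono (fun n => by omega : ∀ n : ℕ, n ≤ 2 * n + 1) tendsto_id)
  have h3 : v OnePoint.infty = 1 := by
    refine tendsto_nhds_unique h1 ?_
    simp only [pow_mul, neg_one_sq, one_pow]
    exact tendsto_const_nhds
  have h5 : ∀ n : ℕ, (-1 : ℂ) ^ (2 * n + 1) = -1 := fun n => by
    rw [pow_succ, pow_mul, neg_one_sq, one_pow, one_mul]
  have h4 : v OnePoint.infty = -1 := by
    refine tendsto_nhds_unique h2 ?_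
    simp only [h5]
    exact tendsto_const_nhds
  rw [h3] at h4
  norm_num at h4

/-- Douglas' factorization in `A`. -/
def Douglas (A : Type*) [CStarAlgebra A] [PartialOrder A] : Prop :=
  ∀ x r : A, star x * x ≤ star r * r → ∃ v : A, ‖v‖ ≤ 1 ∧ x = v * r

theorem douglas_iff {A : Type*} [CStarAlgebra A] [PartialOrder A] [StarOrderedRing A] :
    Douglas A ↔ Dg A := by
  constructor
  · intro h x b hxb
    have hb : 0 ≤ b := (star_mul_self_nonneg x).trans hxb
    obtain ⟨v, hv, hx⟩ := h x (CFC.sqrt b) (by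
      rw [sqrt_star, CFC.sqrt_mul_sqrt_self _ hb]; exact hxb)
    exact ⟨v, (norm_le_one_iff' v).2 hv, hx⟩
  · intro h x r hxr
    obtain ⟨v, hv, hx⟩ := h x (star r * r) hxr
    obtain ⟨w, hw, -, hr⟩ := h.polar r
    refine ⟨v * star w, ?_, ?_⟩
    · have h1 := (norm_le_one_iff' v).1 hv
      have h2 : ‖star w‖ ≤ 1 := by rw [norm_star]; exact (norm_le_one_iff' w).1 hw
      exact (norm_mul_le _ _).trans (mul_le_one₀ h1 (norm_nonneg _) h2)
    · rw [mul_assoc, ← hr]
      exact hx

universe u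

/-- **Theorem.** (1) If a unital C*-algebra `A` has the positive Toeplitz completion property, then
for all `x`, `r` with `x* x ≤ r* r` for which some self-adjoint contraction `g ∈ A` satisfies
`g x = x`, `g r = r`, `x g = 0`, `r g = 0`, there is a contraction `v ∈ A` with `x = v r`.
(2) For `m ≥ 2` the algebra `M_m(A)` has the positive Toeplitz completion property if and only if
all `M_k(A)`, `k ≥ 1`, have it, if and only if `A` has the positive completion property for all
chordal patterns, if and only if Douglas' factorization holds in `A`.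
(3) `M_m(C(ℕ ∪ {∞}))` does not have it, for `m ≥ 2`. -/
theorem result :
    -- (1) the necessary condition
    (∀ (A : Type u) [CStarAlgebra A] [PartialOrder A] [StarOrderedRing A], PTC A →
      ∀ g x r : A, star g = g → ‖g‖ ≤ 1 → g * x = x → g * r = r → x * g = 0 → r * g = 0 →
        star x * x ≤ star r * r → ∃ v : A, ‖v‖ ≤ 1 ∧ x = v * r) ∧
    -- (2) matrix algebras
    (∀ (A : Type u) [CStarAlgebra A] [PartialOrder A] [StarOrderedRing A] (m : ℕ), 2 ≤ m →
      (PTC (CStarMatrix (Fin m) (Fin m) A) ↔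
        ∀ k : ℕ, 1 ≤ k → PTC (CStarMatrix (Fin k) (Fin k) A)) ∧
      (PTC (CStarMatrix (Fin m) (Fin m) A) ↔ ChordalCompletion A) ∧
      (PTC (CStarMatrix (Fin m) (Fin m) A) ↔ Douglas A)) ∧
    -- (3) an example
    ∀ m : ℕ, 2 ≤ m → ¬ PTC (CStarMatrix (Fin m) (Fin m) C(OnePoint ℕ, ℂ)) := by
  refine ⟨?_, ?_, ?_⟩
  · intro A _ _ _ hA g x r hg hn h1 h2 h3 h4 h5
    obtain ⟨v, hv, hx⟩ := hA.local_factor g x r hg hn h1 h2 h3 h4 h5
    exact ⟨v, (norm_le_one_iff' v).1 hv, hx⟩
  · intro A _ _ _ m hm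
    exact ⟨⟨fun h k hk => (((ptc_matrix_iff hm).1 h).matrix ⟨0, by omega⟩).ptc,
        fun h => h m (by omega)⟩, (ptc_matrix_iff hm).trans chordalCompletion_iff.symm,
      (ptc_matrix_iff hm).trans douglas_iff.symm⟩
  · intro m hm h
    exact not_dg ((ptc_matrix_iff hm).1 h)

end Pool.Agent.Results.MP_3f690c_an.MatrixAlgebras
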